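import Pool.Agent.H93.HQ.Targets

/-!
# HQ board, module GT

Left translations commute with the horizontal gradient.
-/

namespace Pool.Agent.H89.HQ
open MeasureTheory Set Filter Topology Pool.Agent.H80.HS Pool.Agent.H93.HQ
open scoped ContDiff ENNReal

/-- the linear part of the left translation by `y` -/
noncomputable def lin {n : ℕ} (y : H n) : H n →L[ℝ] H n :=
  (ContinuousLinearMap.fst ℝ (V n) (V n × ℝ)).prod
    (((ContinuousLinearMap.fst ℝ (V n) ℝ).comp
        (ContinuousLinearMap.snd ℝ (V n) (V n × ℝ))).prod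
      ((ContinuousLinearMap.snd ℝ (V n) ℝ).comp (ContinuousLinearMap.snd ℝ (V n) (V n × ℝ)) +
        (2 : ℝ) • ((innerSL ℝ y.2.1).comp (ContinuousLinearMap.fst ℝ (V n) (V n × ℝ)) -
          (innerSL ℝ y.1).comp ((ContinuousLinearMap.fst ℝ (V n) ℝ).comp
            (ContinuousLinearMap.snd ℝ (V n) (V n × ℝ))))))

theorem lin_apply {n : ℕ} (y v : H n) :
    lin y v = (v.1, v.2.1, v.2.2 + 2 * (inner ℝ y.2.1 v.1 - inner ℝ y.1 v.2.1)) := rfl

theorem mul_eq {n : ℕ} (y x : H n) : mul y x = y + lin y x := by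
  rw [lin_apply]
  refine Prod.ext rfl (Prod.ext rfl ?_)
  change y.2.2 + x.2.2 + 2 * (inner ℝ y.2.1 x.1 - inner ℝ y.1 x.2.1) =
    y.2.2 + (x.2.2 + 2 * (inner ℝ y.2.1 x.1 - inner ℝ y.1 x.2.1))
  ring

theorem hasFDerivAt_mul {n : ℕ} (y x : H n) : HasFDerivAt (mul y) (lin y) x := by
  have h : (mul y : H n → H n) = fun x => y + lin y x := funext fun x => mul_eq y x
  rw [h]
  exact (lin y).hasFDerivAt.const_add y

theorem contDiff_mul {n : ℕ} (y : H n) : ContDiff ℝ 1 (mul y : H n → H n) := by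
  have h : (mul y : H n → H n) = fun x => y + lin y x := funext fun x => mul_eq y x
  rw [h]
  exact contDiff_const.add (lin y).contDiff

/-- the inverse element -/
noncomputable def iv {n : ℕ} (y : H n) : H n := (-y.1, -y.2.1, -y.2.2)

theorem iv_iv {n : ℕ} (y : H n) : iv (iv y) = y := by
  simp [iv]

theorem iv_mul {n : ℕ} (y x : H n) : mul (iv y) (mul y x) = x := by
  refine Prod.ext ?_ (Prod.ext ?_ ?_)
  · change -y.1 + (y.1 + x.1) = x.1
    abel
  · change -y.2.1 + (y.2.1 + x.2.1) = x.2.1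
    abel
  · change -y.2.2 + (y.2.2 + x.2.2 + 2 * (inner ℝ y.2.1 x.1 - inner ℝ y.1 x.2.1)) +
      2 * (inner ℝ (-y.2.1) (y.1 + x.1) - inner ℝ (-y.1) (y.2.1 + x.2.1)) = x.2.2
    rw [inner_neg_left, inner_neg_left, inner_add_right, inner_add_right,
      real_inner_comm y.2.1 y.1]
    ring

theorem mul_iv {n : ℕ} (y x : H n) : mul y (mul (iv y) x) = x := by
  have h := iv_mul (iv y) x
  rwa [iv_iv] at h

/-- the left translation as a homeomorphism -/
noncomputable def hom {n : ℕ} (y : H n) : H n ≃ₜ H n where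
  toFun := mul y
  invFun := mul (iv y)
  left_inv := iv_mul y
  right_inv := mul_iv y
  continuous_toFun := continuous_mul y
  continuous_invFun := continuous_mul (iv y)

theorem fderiv_tr {n : ℕ} {F : Type*} [NormedAddCommGroup F] [NormedSpace ℝ F] (u : H n → F)
    (y x v : H n) (hu : ContDiff ℝ 1 u) :
    fderiv ℝ (fun x => u (mul y x)) x v = fderiv ℝ u (mul y x) (lin y v) := by
  have h1 : HasFDerivAt u (fderiv ℝ u (mul y x)) (mul y x) :=
    (hu.differentiable one_ne_zero _).hasFDerivAt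
  have h2 : HasFDerivAt (fun x => u (mul y x)) ((fderiv ℝ u (mul y x)).comp (lin y)) x :=
    h1.comp x (hasFDerivAt_mul y x)
  rw [h2.fderiv]
  rfl

theorem X_tr {n : ℕ} {F : Type*} [NormedAddCommGroup F] [NormedSpace ℝ F] (u : H n → F)
    (y x : H n) (j : Fin n) (hu : ContDiff ℝ 1 u) :
    X (fun x => u (mul y x)) j x = X u j (mul y x) := by
  unfold X
  rw [fderiv_tr u y x _ hu, lin_apply]
  congr 1
  refine Prod.ext rfl (Prod.ext rfl ?_)
  change 2 * x.2.1 j + 2 * (inner ℝ y.2.1 (EuclideanSpace.single j (1 : ℝ)) -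
    inner ℝ y.1 0) = 2 * (y.2.1 + x.2.1) j
  rw [EuclideanSpace.inner_single_right, inner_zero_right]
  simp only [one_mul, RCLike.conj_to_real, sub_zero, PiLp.add_apply]
  ring

theorem Y_tr {n : ℕ} {F : Type*} [NormedAddCommGroup F] [NormedSpace ℝ F] (u : H n → F)
    (y x : H n) (j : Fin n) (hu : ContDiff ℝ 1 u) :
    Y (fun x => u (mul y x)) j x = Y u j (mul y x) := by
  unfold Y
  rw [fderiv_tr u y x _ hu, lin_apply]
  congr 1
  refine Prod.ext rfl (Prod.ext rfl ?_)
  change -2 * x.1 j + 2 * (inner ℝ y.2.1 0 -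
    inner ℝ y.1 (EuclideanSpace.single j (1 : ℝ))) = -2 * (y.1 + x.1) j
  rw [EuclideanSpace.inner_single_right, inner_zero_right]
  simp only [one_mul, RCLike.conj_to_real, zero_sub, PiLp.add_apply]
  ring

theorem pf_GT : U_GT := by
  intro n F _ _ u y hu hc
  refine ⟨hu.comp (contDiff_mul y), hc.comp_homeomorph (hom y), fun x => ?_⟩
  unfold grad
  congr 1
  refine Finset.sum_congr rfl fun j _ => ?_
  rw [X_tr u y x j hu, Y_tr u y x j hu]

end Pool.Agent.H89.HQ
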