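import Pool.Agent.H30.HQ.Targets
import Pool.Agent.H48.FR.SEL

/-!
MP_6a7a6f_gt, board hqn_modules, row QDT: the data of the contraction.
-/

open Topology Filter

namespace Pool.Agent.H89.HQ

noncomputable section

open Pool.Agent.H59 Pool.Agent.H48.FR Pool.Agent.H58.FL Pool.Agent.H58.JU Pool.Agent.H30.HQ
open scoped Quaternion

lemma qdt_cont {𝕜 : Type} [NormedDivisionRing 𝕜] [StarRing 𝕜] [NormedAlgebra ℝ 𝕜] [PF 𝕜] {n : ℕ}
    (hπc : Continuous (prS : Sph 𝕜 n → PP 𝕜 n)) {A : Type} [TopologicalSpace A]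
    (v : A → Fin (n + 1) → 𝕜) (hv : ∀ a, v a ≠ 0) (hc : Continuous v) :
    Continuous fun a => PP.mk (v a) (hv a) := by
  have hn0 : ∀ a, nrm (v a) ≠ 0 := fun a h => hv a ((nrm_eq_zero_iff _).1 h)
  have hn : ∀ a, nrm ((rs (nrm (v a))⁻¹ : 𝕜) • v a) = 1 := by
    intro a
    rw [nrm_smul, norm_rs, abs_of_nonneg (inv_nonneg.2 (nrm_nonneg _)), inv_mul_cancel₀ (hn0 a)]
  have h1 : Continuous fun a => (⟨(rs (nrm (v a))⁻¹ : 𝕜) • v a, hn a⟩ : Sph 𝕜 n) := by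
    refine Continuous.subtype_mk (continuous_pi fun i => ?_) _
    have h2 : Continuous fun a => (rs (nrm (v a))⁻¹ : 𝕜) :=
      continuous_rs.comp ((continuous_nrm.comp hc).inv₀ hn0)
    exact h2.mul ((continuous_apply i).comp hc)
  have h2 : (fun a => PP.mk (v a) (hv a)) =
      fun a => prS (⟨(rs (nrm (v a))⁻¹ : 𝕜) • v a, hn a⟩ : Sph 𝕜 n) := by
    funext a
    refine (PP.mk_eq_iff _ _).2 ⟨rs (nrm (v a)), ?_, ?_⟩
    · intro h
      have h3 : ‖(rs (nrm (v a)) : 𝕜)‖ = 0 := by rw [h, norm_zero]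
      rw [norm_rs, abs_eq_zero] at h3
      exact hn0 a h3
    · change (rs (nrm (v a)) : 𝕜) • (rs (nrm (v a))⁻¹ : 𝕜) • v a = v a
      rw [smul_smul, rs, rs, ← map_mul, mul_inv_cancel₀ (hn0 a), map_one, one_smul]
  rw [h2]
  exact hπc.comp h1

lemma yQ_ne {k : ℕ} {φ : ℝ} (h0 : 0 < φ) (h1 : φ < Real.pi / 2)
    (x : Fin (2 * (k + 1) + 1) → ℂ) (q : Rg) : yQ φ x q ≠ 0 := by
  have hpi := Real.pi_pos
  have hc : Real.cos (φ / 2) ≠ 0 :=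
    (Real.cos_pos_of_mem_Ioo ⟨by linarith, by linarith⟩).ne'
  have hs : Real.cos (Real.pi / 2 - φ / 2) ≠ 0 :=
    (Real.cos_pos_of_mem_Ioo ⟨by linarith, by linarith⟩).ne'
  unfold yQ
  split_ifs
  · exact yv_ne hs _ _
  · exact yv_ne hc _ _

lemma dist_lt_of_cos {d r : ℝ} (h1 : d ≤ Real.pi / 2) (hr0 : 0 < r)
    (h : Real.cos (2 * r) < Real.cos (2 * d)) : d < r := by
  by_contra hc
  have h2 : r ≤ d := le_of_not_gt hc
  have h3 : Real.cos (2 * d) ≤ Real.cos (2 * r) :=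
    Real.cos_le_cos_of_nonneg_of_le_pi (by linarith) (by linarith) (by linarith)
  linarith

theorem pf_QDT (hSP : T_SP) (_hQVA : T_QVA) (hQDS : T_QDS) (hQFP : T_QFP) (hQNR : T_QNR)
    (hQNP : T_QNP) (hQCI : T_QCI) (hPAB : T_PAB) : T_QDT := by
  intro k g hg r hr1 hr2
  obtain ⟨φ, hφ0, hφ1, hφr, hcr, hcr1, hcr2⟩ := hPAB.2.2 k r hr1 hr2
  have hr0 : 0 < r := by linarith
  have hpi := Real.pi_pos
  obtain ⟨gs, hgs⟩ : ∃ g : (Fin (2 * k + 1) → ℂ) → ℝ, Sel ℂ (2 * k + 1) (2 * k + 1) g := by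
    refine exists_sel (by omega) ?_
    rw [Complex.finrank_real_complex, Nat.multichoose_two]
    omega
  obtain ⟨C, hC0, hC⟩ := hQNP k gs hgs
  obtain ⟨d, hd0, hd1, hd⟩ := hC φ hφ0 hφ1
  obtain ⟨s₀, hs0, hs1, hs⟩ := hQNR k gs hgs.cont C φ (-Real.cos (2 * r)) hφ0 hφ1 (by linarith)
  obtain ⟨hci1, hci2, hci3⟩ := hQCI k gs hgs.cont C φ
  obtain ⟨hcS, hcQ, hπc, hπs⟩ := hSP ℂ (2 * (k + 1))
  have hπH := (hSP ℍ[ℝ] (k + 1)).2.2.1
  have hne : ∀ X : Sph ℂ (2 * (k + 1)), g (prS X) ≠ (bp ℍ[ℝ] (k + 1) : HPn (k + 1)) →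
      t2 (m := 2 * k + 1) X.1 ≠ 0 := fun X => (hQDS k g hg φ X hφ0 hφ1).2.1
  -- the distances
  have hfalse : ∀ (X : Sph ℂ (2 * (k + 1))), t2 (m := 2 * k + 1) X.1 ≠ 0 → ∀ q : Rg,
      q.2 = false → dist (bp ℍ[ℝ] (k + 1) : HPn (k + 1))
        (PP.mk (yQ φ X.1 q) (yQ_ne hφ0 hφ1 _ _) : PP ℍ[ℝ] (k + 1)) < r := by
    intro X hX q hq
    obtain ⟨hy, e, -⟩ := (hQDS k g hg φ X hφ0 hφ1).2.2 hX q
    rw [hq] at e
    have e' : dist (bp ℍ[ℝ] (k + 1) : HPn (k + 1))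
        (PP.mk (yQ φ X.1 q) (yQ_ne hφ0 hφ1 _ _) : PP ℍ[ℝ] (k + 1)) = φ / 2 := e
    rw [e']
    exact hφr
  refine ⟨{
    pb := fun X => (prS X : PP ℂ (2 * (k + 1)))
    g := g
    p := (bp ℍ[ℝ] (k + 1) : PP ℍ[ℝ] (k + 1))
    y := fun X q => (PP.mk (yQ φ X.1 q) (yQ_ne hφ0 hφ1 _ _) : PP ℍ[ℝ] (k + 1))
    F := fun X s q => FQ gs C φ X.1 s q
    s₀ := s₀
    r := r
    d₁ := min d r
    hpb := hπc
    surj := hπs
    s₀_mem := ⟨hs0.le, hs1.le⟩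
    r_pos := hr0
    d₁_pos := lt_min hd0 hr0
    d₁_le := min_le_right _ _
    hy := ?_
    hF := ?_
    inv := ?_
    near_p := ?_
    end_p := ?_
    pair := ?_
    near := ?_ }, rfl, rfl⟩
  · rw [continuousOn_iff_continuous_domRestrict]
    refine qdt_cont hπH _ _ ?_
    refine hci1.comp_continuous (f := fun Z : {Z : Sph ℂ (2 * (k + 1)) × Rg //
      g (prS Z.1) ≠ (bp ℍ[ℝ] (k + 1) : HPn (k + 1))} => (Z.1.1.1, Z.1.2)) (by fun_prop) ?_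
    intro Z
    exact hne Z.1.1 Z.2
  · rw [continuousOn_iff_continuous_domRestrict]
    refine hci2.comp_continuous (f := fun Z : {Z : Sph ℂ (2 * (k + 1)) × ℝ × Rg //
      g (prS Z.1) ≠ (bp ℍ[ℝ] (k + 1) : HPn (k + 1))} => (Z.1.1.1, Z.1.2)) (by fun_prop) ?_
    intro Z
    exact hne Z.1.1 Z.2
  · intro X X' h q
    obtain ⟨a, ha, hX⟩ := (PP.mk_eq_iff (sph_ne X) (sph_ne X')).1 h
    have ha1 : ‖a‖ = 1 := by
      have := X.2
      rw [← hX, nrm_smul, X'.2, mul_one] at this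
      exact this
    obtain ⟨q', e1, e2⟩ := hci3 a X'.1 ha1 q
    rw [hX] at e1 e2
    exact ⟨q', by simp only [e1], e2⟩
  · intro X hX hdist s hs' q hq
    refine hfalse X (hne X hX) q (hd X.1 s X.2 (hne X hX) (hs0.trans_le hs'.1) hs'.2
      (Or.inr ?_) q hq)
    rw [← (hQDS k g hg φ X hφ0 hφ1).1]
    have h0 : 0 ≤ dist (bp ℍ[ℝ] (k + 1) : HPn (k + 1)) (g (prS X)) := dist_nonneg
    have h1 : dist (bp ℍ[ℝ] (k + 1) : HPn (k + 1)) (g (prS X)) ≤ d :=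
      le_trans hdist (min_le_left _ _)
    exact Real.cos_le_cos_of_nonneg_of_le_pi (by linarith) (by linarith) (by linarith)
  · intro X hX q hq
    exact hfalse X (hne X hX) q (hd X.1 1 X.2 (hne X hX) one_pos le_rfl (Or.inl rfl) q hq)
  · intro X hX s hs' q q' hq hq'
    obtain ⟨hy, -, -, e⟩ := (hQDS k g hg φ X hφ0 hφ1).2.2 (hne X hX) q
    have e' := e q' (yQ_ne hφ0 hφ1 _ _)
    refine dist_lt_of_cos (dist_le_pi_div_two _ _) hr0 (lt_of_lt_of_eq ?_ e'.symm)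
    by_cases hqq : q.2 = q'.2
    · rw [if_pos hqq]
      have h1 := (hQFP k gs hgs C φ X.1 s (hne X hX) (hs0.trans_le hs'.1)).2 q q' hq hq' hqq
      have h2 : -Real.cos (Real.pi / (4 * k + 3)) * Real.sin φ ^ 2 ≤
          re (q.1.1 * star q'.1.1) * Real.sin φ ^ 2 :=
        mul_le_mul_of_nonneg_right h1 (sq_nonneg _)
      linarith
    · rw [if_neg hqq]
      exact hcr1
  · intro X hX q hq
    obtain ⟨hy, -, e, -⟩ := (hQDS k g hg φ X hφ0 hφ1).2.2 (hne X hX) q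
    refine dist_lt_of_cos (dist_le_pi_div_two _ _) hr0 (lt_of_lt_of_eq ?_ e.symm)
    have h1 := hs X.1 (hne X hX) q hq
    rwa [neg_neg] at h1

end

end Pool.Agent.H89.HQ
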